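import Pool.Agent.helper48.AN.SpecD

/-! Module an:DL (helper98): vector fields of the deformed curve and Kodaira-Spencer representatives. -/

set_option autoImplicit false

namespace AN

open scoped Classical
open MvPowerSeries (constantCoeff coeff)

noncomputable section

/-- the complement of `TT` -/
def DL_V (k : Type) [Field k] {N : ℕ} (ν : Fin N → ℕ) : Submodule k (LS k) where
  carrier := {v | ∀ n : ℕ, 1 ≤ n → ¬ Gp ν n → cf v (-(n : ℤ)) = 0}
  zero_mem' := fun n _ _ => cf_zero _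
  add_mem' := fun {f g} hf hg n h1 h2 => by rw [cf_add, hf n h1 h2, hg n h1 h2, add_zero]
  smul_mem' := fun c f hf n h1 h2 => by rw [cf_smul, hf n h1 h2, mul_zero]

theorem DL_exp {R : Type} [CommRing R] {g N : ℕ} {γ : Fin g → ℕ} {a : ℕ → LS R} {ν : Fin N → ℕ}
    {τ : ℕ → LS R} (hT : IsT γ a ν τ) (x : LS R) (hx : x ∈ TT ν τ) :
    ∃ M : ℕ, ∀ M' ≥ M, x = ∑ n ∈ Finset.range M',
      if 1 ≤ n ∧ ¬ Gp ν n then cf x (-(n : ℤ)) • τ n else 0 := by
  unfold TT at hx
  induction hx using Submodule.span_induction with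
  | mem x hx =>
    obtain ⟨m, h1, h2, rfl⟩ := hx
    refine ⟨m + 1, fun M' hM' => ?_⟩
    rw [Finset.sum_eq_single m]
    · rw [if_pos ⟨h1, h2⟩, hT.coef m m h1 h1 h2 h2, if_pos rfl, one_smul]
    · intro n _ hn
      split_ifs with h
      · rw [hT.coef m n h1 h.1 h2 h.2, if_neg (Ne.symm hn), zero_smul]
      · rfl
    · intro h
      exact absurd (Finset.mem_range.2 (by omega)) h
  | zero =>
    refine ⟨0, fun M' _ => ?_⟩
    symm
    refine Finset.sum_eq_zero fun n _ => ?_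
    rw [cf_zero, zero_smul, ite_self]
  | add x y _ _ hx hy =>
    obtain ⟨M₁, h1⟩ := hx
    obtain ⟨M₂, h2⟩ := hy
    refine ⟨max M₁ M₂, fun M' hM' => ?_⟩
    conv_lhs => rw [h1 M' (le_trans (le_max_left _ _) hM'), h2 M' (le_trans (le_max_right _ _) hM')]
    rw [← Finset.sum_add_distrib]
    refine Finset.sum_congr rfl fun n _ => ?_
    split_ifs
    · rw [cf_add, add_smul]
    · rw [add_zero]
  | smul c x _ hx =>
    obtain ⟨M, h⟩ := hx
    refine ⟨M, fun M' hM' => ?_⟩
    conv_lhs => rw [h M' hM']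
    rw [Finset.smul_sum]
    refine Finset.sum_congr rfl fun n _ => ?_
    split_ifs
    · rw [cf_smul, mul_smul]
    · rw [smul_zero]

theorem DL_inf {k : Type} [Field k] {g N : ℕ} {γ : Fin g → ℕ} {a : ℕ → LS k} {ν : Fin N → ℕ}
    {τ : ℕ → LS k} (hT : IsT γ a ν τ) : TT ν τ ⊓ DL_V k ν = ⊥ := by
  rw [eq_bot_iff]
  rintro x ⟨h1, h2⟩
  obtain ⟨M, hM⟩ := DL_exp hT x h1
  rw [Submodule.mem_bot, hM M le_rfl]
  refine Finset.sum_eq_zero fun n _ => ?_
  split_ifs with h
  · rw [h2 n h.1 h.2, zero_smul]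
  · rfl

theorem DL_sup {k : Type} [Field k] {g N : ℕ} {γ : Fin g → ℕ} {a : ℕ → LS k} {ν : Fin N → ℕ}
    {τ : ℕ → LS k} (hT : IsT γ a ν τ) : TT ν τ ⊔ DL_V k ν = ⊤ := by
  rw [eq_top_iff]
  intro x _
  obtain ⟨M, hM⟩ := exists_lb_nat x
  set y : LS k := ∑ n ∈ Finset.range (M + 1),
    if 1 ≤ n ∧ ¬ Gp ν n then cf x (-(n : ℤ)) • τ n else 0 with hy
  have h1 : y ∈ TT ν τ := by
    refine Submodule.sum_mem _ fun n _ => ?_
    split_ifs with h
    · exact Submodule.smul_mem _ _ (Submodule.subset_span ⟨n, h.1, h.2, rfl⟩)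
    · exact Submodule.zero_mem _
  have h2 : x - y ∈ DL_V k ν := by
    intro n h1 h2
    rw [cf_sub, hy, cf_sum]
    have e : ∀ m ∈ Finset.range (M + 1), cf (if 1 ≤ m ∧ ¬ Gp ν m then cf x (-(m : ℤ)) • τ m else 0)
        (-(n : ℤ)) = if m = n then cf x (-(n : ℤ)) else 0 := by
      intro m _
      by_cases h : m = n
      · subst h
        rw [if_pos ⟨h1, h2⟩, if_pos rfl, cf_smul, hT.coef _ _ h1 h1 h2 h2, if_pos rfl, mul_one]
      · rw [if_neg h]
        split_ifs with h'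
        · rw [cf_smul, hT.coef _ _ h'.1 h1 h'.2 h2, if_neg h, mul_zero]
        · exact cf_zero _
    rw [Finset.sum_congr rfl e, Finset.sum_ite_eq']
    split_ifs with h
    · exact sub_self _
    · rw [sub_zero]
      refine hM _ ?_
      rw [Finset.mem_range] at h
      omega
  rw [← add_sub_cancel y x]
  exact Submodule.add_mem_sup h1 h2

theorem DL_act {k : Type} [Field k] {g N : ℕ} {γ : Fin g → ℕ} {a : ℕ → LS k} {ν : Fin N → ℕ}
    {τ : ℕ → LS k} (hT : IsT γ a ν τ) (t : LS k) (ht : t ∈ TT ν τ) (f : LS k) (hf : f ∈ AA γ a) :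
    t * dd f ∈ AA γ a := by
  unfold TT at ht
  induction ht using Submodule.span_induction with
  | mem t ht =>
    obtain ⟨m, h1, h2, rfl⟩ := ht
    unfold AA at hf
    induction hf using Submodule.span_induction with
    | mem f hf =>
      obtain ⟨r, hr, rfl⟩ := hf
      exact hT.act m r h1 h2 hr
    | zero => rw [map_zero, mul_zero]; exact Submodule.zero_mem _
    | add f f' _ _ h h' => rw [map_add, mul_add]; exact Submodule.add_mem _ h h'
    | smul c f _ h => rw [map_smul, mul_smul_comm]; exact Submodule.smul_mem _ _ h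
  | zero => rw [zero_mul]; exact Submodule.zero_mem _
  | add t t' _ _ h h' => rw [add_mul]; exact Submodule.add_mem _ h h'
  | smul c t _ h => rw [smul_mul_assoc]; exact Submodule.smul_mem _ _ h

/-- the elements of `V` have bounded poles -/
theorem DL_Vb (k : Type) [Field k] {N : ℕ} (ν : Fin N → ℕ) :
    ∃ m : ℤ, ∀ v ∈ DL_V k ν, v ∈ GE k m := by
  refine ⟨-((∑ i, ν i : ℕ) : ℤ), fun v hv n hn => ?_⟩
  have h1 : n = -((-n).toNat : ℤ) := by omega
  rw [h1]
  refine hv _ (by omega) ?_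
  rintro ⟨i, hi⟩
  have h2 : ν i ≤ ∑ i, ν i := Finset.single_le_sum (f := ν) (fun _ _ => Nat.zero_le _) (Finset.mem_univ i)
  omega

theorem DL_cf_sw {k : Type} [Field k] {N : ℕ} (f : LS (BB k N)) (α : Fin N →₀ ℕ) (n : ℤ) :
    coeff (R := k) α (cf f n) = cf (coeff (R := LS k) α (sw f)) n := rfl

theorem DL (hDB : DB_stmt) (hDC : DC_stmt) (hDD : DD_stmt) (hDF : DF_stmt) (hDG : DG_stmt) :
    DL_stmt := by
  intro k _ N g γ a ν τ hK hT A hA
  set h : Fin N → LS k := fun i => mono (-(ν i : ℤ)) (1 : k) with hh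
  obtain ⟨P1, Padd, Pmul, PB, -⟩ := hDB k N h
  obtain ⟨Cmul, Cd, Cp⟩ := hDC k N h
  obtain ⟨D1, u, hu, D2⟩ := hDD k N h
  obtain ⟨s1, sadd, smul, sinj, sdd, sres, spd, sC, smono, sGE, ssurj⟩ := hDF k N
  obtain ⟨A1, A2, A3, A4⟩ := hA
  set F : KK k N → KK k N := fun x => Phi h x * u with hF
  have Fadd : ∀ x y, F (x + y) = F x + F y := fun x y => by
    simp only [hF, Padd, add_mul]
  have Flow : ∀ (n : ℕ) (x : KK k N), (∀ α : Fin N →₀ ℕ, α.degree < n → coeff α x = 0) →
      ∀ α : Fin N →₀ ℕ, α.degree ≤ n → coeff α (F x) = coeff α x := by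
    intro n x hx α hα
    have e1 := D1 n x hx
    rw [← e1 α hα]
    exact D2 n (Phi h x) (fun β hβ => by rw [e1 β hβ.le, hx β hβ]) α hα
  obtain ⟨dec, uni⟩ := hDG k N F Fadd Flow (TT ν τ) (DL_V k ν) (DL_sup hT) (DL_inf hT)
  obtain ⟨m, hm⟩ := DL_Vb k ν
  -- elements of V[[t]] come from Laurent series over B
  have lift : ∀ v : KK k N, CI (DL_V k ν) v → ∃ f : LS (BB k N), sw f = v ∧
      ∀ n : ℕ, 1 ≤ n → ¬ Gp ν n → cf f (-(n : ℤ)) = 0 := by
    intro v hv
    obtain ⟨f, hf⟩ := ssurj m v fun α => hm _ (hv α)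
    refine ⟨f, hf, fun n h1 h2 => ?_⟩
    ext α
    rw [DL_cf_sw, hf, map_zero]
    exact hv α n h1 h2
  -- products
  have prod : ∀ y x : KK k N, CI (TT ν τ) y → CI (AA γ a) x → CI (AA γ a) (y * ddK x) := by
    intro y x hy hx α
    rw [MvPowerSeries.coeff_mul]
    exact Submodule.sum_mem _ fun q _ => DL_act hT _ (hy q.1) _ (hx q.2)
  have Fmul : ∀ y x : KK k N, F y * ddK (Phi h x) = Phi h (y * ddK x) := by
    intro y x
    rw [Cd, Pmul]
    show Phi h y * u * (Phi h (ddK x) * (1 + ddK (del h))) = Phi h y * Phi h (ddK x)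
    calc Phi h y * u * (Phi h (ddK x) * (1 + ddK (del h)))
        = Phi h y * Phi h (ddK x) * (u * (1 + ddK (del h))) := by ring
      _ = _ := by rw [hu, mul_one]
  have Ain : ∀ r, ¬ Gp γ r → ∃ x : KK k N, CI (AA γ a) x ∧ sw (A r) = Phi h x := fun r hr =>
    (A4 (A r)).1 (Submodule.subset_span ⟨r, hr, rfl⟩)
  -- the vector fields
  have hTn : ∀ n : ℕ, ∃ t : LS (BB k N), (∀ n' : ℕ, 1 ≤ n' → ¬ Gp ν n' →
      cf t (-(n' : ℤ)) = if n = n' then 1 else 0) ∧ ∃ y : KK k N, CI (TT ν τ) y ∧ sw t = F y := by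
    intro n
    obtain ⟨y, v, hy, hv, e⟩ := dec (MvPowerSeries.C (mono (-(n : ℤ)) (1 : k)))
    obtain ⟨f, hf, hf0⟩ := lift v hv
    refine ⟨mono (-(n : ℤ)) 1 - f, fun n' h1 h2 => ?_, y, hy, ?_⟩
    · rw [cf_sub, hf0 n' h1 h2, sub_zero, cf_mono]
      by_cases e : n = n'
      · rw [if_pos e, if_pos (by omega)]
      · rw [if_neg e, if_neg (by omega)]
    · have e1 : sw (mono (-(n : ℤ)) (1 : BB k N)) = MvPowerSeries.C (mono (-(n : ℤ)) (1 : k)) := by
        rw [← smono, map_one]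
      have e2 : sw (mono (-(n : ℤ)) 1 - f) + sw f = F y + v := by
        rw [← sadd, sub_add_cancel, e1, e]
      rw [hf] at e2
      exact add_right_cancel e2
  choose T hT1 hT2 using hTn
  -- the Kodaira-Spencer representatives
  have hth : ∀ i : Fin N, ∃ θ : LS (BB k N), (∀ n : ℕ, 1 ≤ n → ¬ Gp ν n →
      cf θ (-(n : ℤ)) = 0) ∧ ∃ y : KK k N, CI (TT ν τ) y ∧
        -(MvPowerSeries.C (h i) * u) = F y + sw θ := by
    intro i
    obtain ⟨y, v, hy, hv, e⟩ := dec (-(MvPowerSeries.C (h i) * u))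
    obtain ⟨f, hf, hf0⟩ := lift v hv
    exact ⟨f, hf0, y, hy, by rw [hf]; exact e⟩
  choose θ hθ1 y hy hθ2 using hth
  refine ⟨T, θ, fun j i => cf (θ i) (-(ν j : ℤ)), ?_, ?_, ?_, ?_⟩
  · refine ⟨hT.inj, hT.pos, fun n n' h1 h2 h3 h4 => hT1 n n' h2 h4, fun n r h1 h2 h3 => ?_⟩
    obtain ⟨x, hx, ex⟩ := Ain r h3
    obtain ⟨z, hz, ez⟩ := hT2 n
    refine (A4 _).2 ⟨z * ddK x, prod z x hz hx, ?_⟩
    rw [smul, ← sdd, ex, ez, Fmul]
  · -- the determinant
    rw [MvPowerSeries.isUnit_iff_constantCoeff]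
    have key : ∀ j i : Fin N, constantCoeff (σ := Fin N) (R := k) (cf (θ i) (-(ν j : ℤ))) =
        -(if j = i then 1 else 0) := by
      intro j i
      have e0 := congrArg (coeff (R := LS k) (0 : Fin N →₀ ℕ)) (hθ2 i)
      have triv : ∀ x : KK k N, ∀ α : Fin N →₀ ℕ, α.degree < 0 → coeff α x = 0 :=
        fun x α hα => absurd hα (by omega)
      rw [map_neg, map_add, D2 0 _ (triv _) 0 (by simp), Flow 0 _ (triv _) 0 (by simp)] at e0
      rw [show coeff (R := LS k) (0 : Fin N →₀ ℕ) (MvPowerSeries.C (h i)) = h i by simp] at e0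
      have hV : -(h i) - coeff (R := LS k) (0 : Fin N →₀ ℕ) (sw (θ i)) ∈ DL_V k ν := by
        intro n h1 h2
        rw [cf_sub, cf_neg, hh, cf_mono, if_neg, ← DL_cf_sw, hθ1 i n h1 h2, map_zero, neg_zero,
          sub_zero]
        intro h3
        exact h2 ⟨i, by omega⟩
      have hy0 : coeff (R := LS k) (0 : Fin N →₀ ℕ) (y i) = 0 := by
        have h1 : coeff (R := LS k) (0 : Fin N →₀ ℕ) (y i) ∈ TT ν τ ⊓ DL_V k ν := by
          refine ⟨hy i 0, ?_⟩
          have : coeff (R := LS k) (0 : Fin N →₀ ℕ) (y i) =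
              -(h i) - coeff (R := LS k) (0 : Fin N →₀ ℕ) (sw (θ i)) := by
            rw [e0]; ring
          rw [this]
          exact hV
        rw [DL_inf hT, Submodule.mem_bot] at h1
        exact h1
      rw [hy0, zero_add] at e0
      have e1 : constantCoeff (σ := Fin N) (R := k) (cf (θ i) (-(ν j : ℤ))) =
          cf (coeff (R := LS k) (0 : Fin N →₀ ℕ) (sw (θ i))) (-(ν j : ℤ)) := rfl
      rw [e1, ← e0, cf_neg, hh, cf_mono]
      congr 1
      by_cases hji : j = i
      · rw [if_pos hji, if_pos (by rw [hji])]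
      · rw [if_neg hji, if_neg]
        intro h3
        exact hji (hT.inj (by omega))
    rw [RingHom.map_det]
    have e2 : (constantCoeff (σ := Fin N) (R := k)).mapMatrix
        (fun j i => cf (θ i) (-(ν j : ℤ)) : Matrix (Fin N) (Fin N) (BB k N)) = -1 := by
      ext j i
      rw [RingHom.mapMatrix_apply, Matrix.map_apply, key, Matrix.neg_apply, Matrix.one_apply]
    rw [e2, Matrix.det_neg, Matrix.det_one, mul_one]
    exact (isUnit_one.neg).pow _
  · -- polar parts
    intro i n hn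
    rw [cf_sub, cf_sum]
    have h1 : n = -((-n).toNat : ℤ) := by omega
    by_cases hg : Gp ν (-n).toNat
    · obtain ⟨j, hj⟩ := hg
      rw [Finset.sum_eq_single j]
      · rw [cf_mono, if_pos (by omega)]
        show cf (θ i) n - cf (θ i) (-(ν j : ℤ)) = 0
        rw [show -(ν j : ℤ) = n by omega, sub_self]
      · intro j' _ hj'
        rw [cf_mono, if_neg]
        intro h3
        exact hj' (hT.inj (by omega))
      · intro h3
        exact absurd (Finset.mem_univ _) h3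
    · rw [Finset.sum_eq_zero, sub_zero, h1]
      · exact hθ1 i _ (by omega) hg
      · intro j _
        rw [cf_mono, if_neg]
        intro h3
        exact hg ⟨j, by omega⟩
  · intro i r hr
    obtain ⟨x, hx, ex⟩ := Ain r hr
    refine (A4 _).2 ⟨MvPowerSeries.pderiv (LS k) i x - y i * ddK x, ?_, ?_⟩
    · intro α
      rw [map_sub]
      refine Submodule.sub_mem _ ?_ (prod _ _ (hy i) hx α)
      rw [MvPowerSeries.coeff_pderiv]
      have e3 : ((α i : LS k) + 1) = LS.C ((α i : k) + 1) := by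
        rw [map_add, map_natCast, map_one]
      rw [e3, mul_comm, C_mul]
      exact Submodule.smul_mem _ _ (hx _)
    · have e4 : Phi h (MvPowerSeries.pderiv (LS k) i x - y i * ddK x) +
          Phi h (y i * ddK x) = Phi h (MvPowerSeries.pderiv (LS k) i x) := by
        rw [← Padd, sub_add_cancel]
      have e5 : sw (θ i) * ddK (Phi h x) =
          -(MvPowerSeries.C (h i) * Phi h (ddK x)) - Phi h (y i * ddK x) := by
        rw [← Fmul (y i) x]
        have e6 : sw (θ i) = -(MvPowerSeries.C (h i) * u) - F (y i) := by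
          rw [hθ2 i]; ring
        rw [e6, sub_mul, Cd]
        congr 1
        calc -(MvPowerSeries.C (h i) * u) * (Phi h (ddK x) * (1 + ddK (del h)))
            = -(MvPowerSeries.C (h i) * Phi h (ddK x) * (u * (1 + ddK (del h)))) := by ring
          _ = _ := by rw [hu, mul_one]
      rw [sadd, smul, ← spd, ← sdd, ex, Cp, e5, ← e4]
      ring

end

end AN
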