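import Pool.Agent.helper48.AN.SpecD

/-! Module an:EA (helper98): a one-parameter family (assembly of parts D, P and A). -/

set_option autoImplicit false

namespace AN

open scoped Classical
open MvPowerSeries (constantCoeff coeff)

theorem EA_HW_congr (p : ℕ) {R : Type} [CommRing R] {g : ℕ} (γ : Fin g → ℕ) (a a' : ℕ → LS R)
    (h : ∀ r, ¬ Gp γ r → a r = a' r) : HW p γ a = HW p γ a' := by
  funext i j
  unfold HW
  split_ifs with h1 h2
  · rfl
  · rfl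
  · rw [h _ h1]

/-- the derivation of the base-changed data -/
theorem EA_cD {k : Type} [Field k] {N : ℕ} {K : Type} [Field K] (ψ : BB k N →+* K)
    (D : Derivation ℤ K K) (d : Fin N → K)
    (hD : ∀ b : BB k N, D (ψ b) = ∑ i, d i * ψ (MvPowerSeries.pderiv k i b)) (f : LS (BB k N)) :
    cD D (mp ψ f) = ∑ i, d i • mp ψ (cD (pdB k N i) f) := by
  ext n
  rw [cf_cD, cf_mp, cf_sum, hD]
  refine Finset.sum_congr rfl fun i _ => ?_
  rw [cf_smul, cf_mp, cf_cD, pdB_apply]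

theorem EA (hDZ : DZ_stmt) (hBC : BC_stmt) (hPG : PG_stmt) (hPL : PL_stmt) (hPN : PN_stmt)
    (hPO : PO_stmt) (hTH : TH_stmt) (h1 : EA1_stmt) (h2 : EA2_stmt) : EA_stmt := by
  intro p _ k _ _ _ N g γ a ν τ hg hK hT hN
  obtain ⟨A₀, T, θ, M, hA, hA0, hTA, hM, hθ, hder⟩ := hDZ p k N g γ a ν τ hK hT
  obtain ⟨-, -, -, hHW, -⟩ := hBC _ _ (constantCoeff (σ := Fin N) (R := k)) g N γ A₀ ν T hA
  have e0 : (HW p γ A₀).map (constantCoeff (σ := Fin N) (R := k)) = HW p γ a := by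
    rw [← hHW p]
    exact EA_HW_congr p γ _ _ hA0
  obtain ⟨q, n, hq, hn, hC, hMN⟩ := hPL p k N g (HW p γ A₀) (by rw [e0]; exact hN)
  obtain ⟨K, iK, iC, ψ, S, hψ, hS, hD⟩ := hPN p k N n q hq hC
  obtain ⟨kK, kA, kO, kH, kT⟩ := hBC _ _ ψ g N γ A₀ ν T hA
  have hAT : ATHyp p γ (fun r => mp ψ (A₀ r)) ν (fun n => mp ψ (T n)) (fun i => mp ψ (θ i))
      (M.map ψ) S := by
    refine ⟨kK, kT hTA, ?_, ?_, by omega, ?_⟩
    · have : (M.map ψ).det = ψ M.det := (RingHom.map_det ψ M).symm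
      rw [this]
      exact (hM.map ψ).ne_zero
    · intro i
      have := mp_mem_GE ψ (hθ i)
      rw [map_sub, map_sum] at this
      have e : ∑ j, mp ψ (mono (-(ν j : ℤ)) (M j i)) = ∑ j, mono (-(ν j : ℤ)) ((M.map ψ) j i) := by
        refine Finset.sum_congr rfl fun j _ => ?_
        rw [mp_mono, Matrix.map_apply]
      rw [← e]
      exact this
    · intro d hd
      obtain ⟨D, hD⟩ := hD d hd
      refine ⟨D, fun r hr => ?_⟩
      have e : cD D (mp ψ (A₀ r)) + (∑ i, LS.C (d i) * mp ψ (θ i)) * dd (mp ψ (A₀ r)) =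
          ∑ i, d i • mp ψ (cD (pdB k N i) (A₀ r) + θ i * dd (A₀ r)) := by
        rw [EA_cD ψ D d hD, Finset.sum_mul, ← Finset.sum_add_distrib]
        refine Finset.sum_congr rfl fun i _ => ?_
        rw [map_add, map_mul, smul_add, dd_mp, mul_assoc, C_mul]
      rw [e]
      exact Submodule.sum_mem _ fun i _ => Submodule.smul_mem _ _ (kA _ (hder i r hr))
  have z0 : MN p ((HW p γ A₀).map ψ) g = 0 := by
    rw [hPG.1]
    ext i j
    rw [Matrix.map_apply, Matrix.zero_apply]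
    have : MN p (HW p γ A₀) g i j ∈ RingHom.ker ψ := by rw [hψ]; exact hMN i j
    exact this
  obtain ⟨x, hx, hx0⟩ := h1 p K g ((HW p γ A₀).map ψ) hg z0
  have hr := hTH p K g N γ _ ν _ _ _ S hAT ⟨x, hx, by rw [kH]; exact hx0⟩
  rw [kH] at hr
  obtain ⟨μ, hμ, hμ'⟩ := h2 _ _ ψ g (HW p γ A₀) hr
  obtain ⟨Φ, hΦ, hΦμ, hΦc⟩ := hPO k N n q hq hC μ fun h => hμ (by
    rw [← hψ] at h
    exact h)
  obtain ⟨lK, -, -, lH, -⟩ := hBC _ _ (Φ : BB k N →+* PowerSeries k) g N γ A₀ ν T hA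
  refine ⟨_, lK, ?_, ?_, ?_⟩
  · intro r hr
    rw [← hA0 r hr]
    ext m
    rw [cf_mp, cf_mp, cf_mp]
    exact hΦc _
  · rw [lH, hPG.1]
    refine Matrix.ext fun i j => ?_
    rw [Matrix.map_apply, Matrix.zero_apply]
    exact hΦ _ (hMN i j)
  · intro Ω _ φ hφ
    rw [lH, Matrix.map_map]
    refine hμ' Ω (φ.comp (Φ : BB k N →+* PowerSeries k)) fun h => hΦμ ?_
    exact hφ (by rw [map_zero]; exact h)

end AN
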