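import Pool.Agent.helper48.AN.SpecF

/-! Module an:FG (helper98): p-rank 0 implies that the Hasse-Witt matrix is p-nilpotent. -/

set_option autoImplicit false

namespace AN

open scoped Classical
open Pool.Agent.helper53.AU

noncomputable section

/-- Leibniz formula for iterates -/
theorem FG_leib {R : Type} [CommRing R] (Δ Θ : R →+ R)
    (h : ∀ f y, Θ (f * y) = Δ f * y + f * Θ y) (n : ℕ) (f y : R) :
    (Θ^[n]) (f * y) = ∑ q ∈ Finset.HasAntidiagonal.antidiagonal n,
      (n.choose q.1) • ((Δ^[q.1]) f * (Θ^[q.2]) y) := by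
  induction n with
  | zero => simp
  | succ n ih =>
    rw [Function.iterate_succ_apply', ih, map_sum,
      Finset.sum_antidiagonal_choose_succ_nsmul (fun i j => (Δ^[i]) f * (Θ^[j]) y),
      ← Finset.sum_add_distrib]
    refine Finset.sum_congr rfl fun q hq => ?_
    rw [map_nsmul, h, Function.iterate_succ_apply', Function.iterate_succ_apply', nsmul_add,
      add_comm]
    congr 2
    rw [Finset.HasAntidiagonal.mem_antidiagonal] at hq
    rw [← hq]
    exact Nat.choose_symm_add

theorem FG_leibp (p : ℕ) [hp : Fact p.Prime] {R : Type} [CommRing R] [CharP R p] (Δ Θ : R →+ R)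
    (h : ∀ f y, Θ (f * y) = Δ f * y + f * Θ y) (f y : R) :
    (Θ^[p]) (f * y) = (Δ^[p]) f * y + f * (Θ^[p]) y := by
  rw [FG_leib Δ Θ h, Finset.Nat.sum_antidiagonal_eq_sum_range_succ_mk, Finset.sum_range_succ]
  obtain ⟨q, hq⟩ : ∃ q, p = q + 1 := ⟨p - 1, by have := hp.out.pos; omega⟩
  have e : ∑ x ∈ Finset.range p, (p.choose (x, p - x).1) •
      ((Δ^[(x, p - x).1]) f * (Θ^[(x, p - x).2]) y) = f * (Θ^[p]) y := by
    rw [Finset.sum_eq_single 0]
    · simp
    · intro i hi hi0
      rw [Finset.mem_range] at hi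
      have h1 : ((p.choose i : ℕ) : R) = 0 := by
        rw [CharP.cast_eq_zero_iff R p]
        exact hp.out.dvd_choose_self hi0 hi
      rw [nsmul_eq_mul]
      show ((p.choose i : ℕ) : R) * _ = 0
      rw [h1, zero_mul]
    · intro h0
      exact absurd (Finset.mem_range.2 hp.out.pos) h0
  rw [e]
  simp
  ring

/-- in characteristic `p` derivations of `LS k` are multiples of `dd` -/
theorem FG_der (p : ℕ) [hp : Fact p.Prime] {k : Type} [Field k] [IsAlgClosed k] [CharP k p]
    (E : LS k →+ LS k) (hE : ∀ f g, E (f * g) = E f * g + f * E g) (f : LS k) :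
    E f = dd f * E (mono 1 1) := by
  have hp0 : (0 : ℤ) < p := by exact_mod_cast hp.out.pos
  have cp : CharP (LS k) p :=
    charP_of_injective_ringHom (f := (LS.C : k →+* LS k)) HahnSeries.C_injective p
  -- derivations
  set E' : Derivation ℤ (LS k) (LS k) := derOf E fun a b => by rw [hE]; ring with hE'
  have hEE : ∀ x, E x = E' x := fun x => rfl
  have hpow : ∀ (G : Derivation ℤ (LS k) (LS k)) (y : LS k), G (y ^ p) = 0 := by
    intro G y
    rw [Derivation.leibniz_pow, nsmul_eq_mul, CharP.cast_eq_zero, zero_mul]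
  set d' : Derivation ℤ (LS k) (LS k) := (ddD k).restrictScalars ℤ with hd'
  have hdd : ∀ x, dd x = d' x := fun x => rfl
  have root : ∀ c : k, ∃ r : k, r ^ p = c := fun c => IsAlgClosed.exists_pow_nat_eq c hp.out.pos
  choose r hr using root
  have r0 : r 0 = 0 := by
    have := hr 0
    exact pow_eq_zero_iff hp.out.ne_zero |>.1 this
  obtain ⟨M, hM⟩ := exists_lb_nat f
  set G : ℕ → LS k := fun i => ofFun (fun n => r (cf f (p * n + i))) (-(M : ℤ) - i - 1)
    (fun n hn => by
      rw [hM]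
      · exact r0
      · have h1 : (p : ℤ) * n ≤ n := by nlinarith
        omega) with hG
  set s : LS k := mono 1 1 with hs
  have hsp : ∀ i : ℕ, s ^ i = mono (i : ℤ) 1 := by
    intro i
    induction i with
    | zero => rw [pow_zero]; exact (map_one LS.C).symm
    | succ i ih =>
      rw [pow_succ, ih, hs, mono_mul_mono, one_mul]
      congr 1
  have key : f = ∑ i ∈ Finset.range p, G i ^ p * s ^ i := by
    ext m
    rw [cf_sum]
    have hm0 : 0 ≤ m % p := Int.emod_nonneg _ hp0.ne'
    have hm1 : m % p < p := Int.emod_lt_of_pos _ hp0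
    have hm2 : (p : ℤ) * (m / p) + m % p = m := Int.mul_ediv_add_emod m p
    rw [Finset.sum_eq_single (m % p).toNat]
    · rw [hsp, mul_comm, cf_mono_mul, one_mul, cf_pow_char]
      have e1 : m - ((m % p).toNat : ℤ) = p * (m / p) := by omega
      rw [e1, if_pos (dvd_mul_right _ _), Int.mul_ediv_cancel_left _ hp0.ne']
      show cf f m = r (cf f (p * (m / p) + (m % p).toNat)) ^ p
      rw [hr]
      congr 1
      omega
    · intro i hi hne
      rw [Finset.mem_range] at hi
      rw [hsp, mul_comm, cf_mono_mul, one_mul, cf_pow_char, if_neg]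
      rintro ⟨c, hc⟩
      apply hne
      have h1 : m = i + p * c := by omega
      have h2 : m % p = i := by
        rw [h1, Int.add_mul_emod_self_left]
        exact Int.emod_eq_of_lt (by omega) (by omega)
      omega
    · intro h
      exact absurd (Finset.mem_range.2 (by omega)) h
  have hds : d' s = 1 := by
    show dd (mono 1 1) = 1
    rw [dd_mono]
    simp only [sub_self, Int.cast_one, mul_one]
    exact map_one LS.C
  rw [hEE, hEE, hdd, key, map_sum, map_sum, Finset.sum_mul]
  refine Finset.sum_congr rfl fun i _ => ?_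
  rw [Derivation.leibniz, Derivation.leibniz, hpow, hpow, Derivation.leibniz_pow,
    Derivation.leibniz_pow, hds]
  simp only [smul_eq_mul, nsmul_eq_mul]
  ring

theorem FG_iter_zero {F : Type} [Field F] (T : F → F) (n : ℕ) (h : (T^[n]) 1 = 0) :
    ∃ f : F, f ≠ 0 ∧ T f = 0 := by
  have hex : ∃ n, (T^[n]) 1 = 0 := ⟨n, h⟩
  set m := Nat.find hex with hm
  have h1 : (T^[m]) 1 = 0 := Nat.find_spec hex
  have h0 : m ≠ 0 := by
    intro h0
    rw [h0] at h1
    exact one_ne_zero h1
  obtain ⟨j, hj⟩ : ∃ j, m = j + 1 := ⟨m - 1, by omega⟩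
  refine ⟨(T^[j]) 1, fun h2 => ?_, ?_⟩
  · have := Nat.find_min hex (m := j) (by omega)
    exact this h2
  · rw [hj, Function.iterate_succ_apply'] at h1
    exact h1

/-- the operator `u d/ds - v` -/
def FG_op {k : Type} [Field k] (u v : LS k) : LS k →+ LS k where
  toFun y := u * dd y - v * y
  map_zero' := by rw [map_zero, mul_zero, mul_zero, sub_zero]
  map_add' a b := by rw [map_add]; ring

/-- iterates -/
def FG_it {k : Type} [Field k] (Δ : LS k →+ LS k) (n : ℕ) : LS k →+ LS k where
  toFun := Δ^[n]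
  map_zero' := iterate_map_zero Δ n
  map_add' := iterate_map_add Δ n

theorem FG_aux (hK1 : QK1_stmt) (hK2 : QK2_stmt) (hK5 : QK5_stmt) (hFB : FB_stmt)
    (hFD : FD_stmt) (h1 : FG1_stmt) (h2 : FG2_stmt) (h4 : FG4_stmt) : FG_stmt := by
  intro p hpp k F _ _ _ _ _ hF P₀ ι hι g γ a hK hA hpr
  unfold PNil
  by_contra hne
  obtain ⟨z, hz, hz'⟩ := h1 p k g _ hne
  obtain ⟨η, hη, hηP, hη0, hres⟩ := (h2 p k g γ a hK).1 z hz hz'
  have : Infinite k := IsAlgClosed.instInfinite
  obtain ⟨y₀, hy₀, hdy⟩ := h4 p k η hres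
  obtain ⟨D₀, hD₀⟩ := hK1 k F hF
  obtain ⟨x, hx⟩ : ∃ x, D₀ x ≠ 0 := by
    by_contra hc
    push Not at hc
    exact hD₀ (Derivation.ext hc)
  obtain ⟨D, hDx⟩ : ∃ D : Derivation k F F, D x = 1 :=
    ⟨(D₀ x)⁻¹ • D₀, by rw [Derivation.smul_apply, smul_eq_mul, inv_mul_cancel₀ hx]⟩
  have hD : D ≠ 0 := by
    intro h
    rw [h, Derivation.zero_apply] at hDx
    exact zero_ne_one hDx
  obtain ⟨u, hu, hu0, hud⟩ := hFB k F hF P₀ ι hι D hD
  have uz : u ≠ 0 := by
    intro h
    rw [h, cf_zero] at hu0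
    exact hu0 rfl
  have cF : CharP F p := charP_of_injective_algebraMap (algebraMap k F).injective p
  have cL : CharP (LS k) p :=
    charP_of_injective_ringHom (f := (LS.C : k →+* LS k)) HahnSeries.C_injective p
  -- the function w
  have hall : ∀ η ∈ OmA γ a, ∃ w ∈ Submodule.span k {x : F | ∃ f ∈ Reg P₀, ∃ h ∈ Reg P₀,
      x = f * D h}, η = u * ι w := by
    clear hη hηP hη0 hres hdy η
    intro η hη
    unfold OmA at hη
    induction hη using Submodule.span_induction with
    | mem η hη =>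
      obtain ⟨f, hf, h, hh, rfl⟩ := hη
      obtain ⟨f', hf', rfl⟩ := (hA f).1 hf
      obtain ⟨h', hh', rfl⟩ := (hA h).1 hh
      refine ⟨f' * D h', Submodule.subset_span ⟨f', hf', h', hh', rfl⟩, ?_⟩
      rw [hud, map_mul]
      ring
    | zero => exact ⟨0, Submodule.zero_mem _, by rw [map_zero, mul_zero]⟩
    | add a b _ _ ha hb =>
      obtain ⟨wa, h1, h2⟩ := ha
      obtain ⟨wb, h3, h4⟩ := hb
      exact ⟨wa + wb, Submodule.add_mem _ h1 h3, by rw [map_add, h2, h4]; ring⟩
    | smul c a _ ha =>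
      obtain ⟨wa, h1, h2⟩ := ha
      refine ⟨c • wa, Submodule.smul_mem _ _ h1, ?_⟩
      rw [Algebra.smul_def c wa, map_mul, hι.const, h2, ← C_mul]
      ring
  obtain ⟨w, hw, hηw⟩ := hall η hη
  have hw0 : w ≠ 0 := by
    intro h
    rw [h, map_zero, mul_zero] at hηw
    exact hη0 hηw
  -- regularity of w
  have hwP : ∀ P : Place k F, P.Ge (P.ord (D P.unif)) w := by
    intro P
    by_cases hP : P = P₀
    · subst hP
      right
      by_contra hc
      push Not at hc
      have e := cf_mul_lead hu (hι.mem w hw0)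
      rw [← hηw, hηP _ (by omega)] at e
      exact (mul_ne_zero hu0 (hι.ne w hw0)) e.symm
    · exact (hFD k F hF P₀ D hD w).2 hw P hP
  -- D^p = 0
  have hDp : ∀ f : F, (D^[p]) f = 0 := by
    set Δ : F →+ F := D.toLinearMap.toAddMonoidHom with hΔ
    have hl := FG_leibp p Δ Δ (fun f y => by
      show D (f * y) = D f * y + f * D y
      rw [Derivation.leibniz]
      simp only [smul_eq_mul]
      ring)
    have hk : ∀ (c : k), (D^[p]) (algebraMap k F c) = 0 := by
      intro c
      obtain ⟨q, hq⟩ : ∃ q, p = q + 1 := ⟨p - 1, by have := hpp.out.pos; omega⟩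
      rw [hq, Function.iterate_succ_apply, Derivation.map_algebraMap]
      exact iterate_map_zero D q
    have hadd : ∀ f g : F, (D^[p]) (f + g) = (D^[p]) f + (D^[p]) g := fun f g =>
      iterate_map_add D p f g
    have hl' : ∀ f g : F, (D^[p]) (f * g) = (D^[p]) f * g + f * (D^[p]) g := hl
    set E : Derivation k F F := Derivation.mk'
      { toFun := (D^[p]), map_add' := hadd, map_smul' := fun c f => by
          rw [Algebra.smul_def, hl', hk, zero_mul, zero_add, RingHom.id_apply, Algebra.smul_def] }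
      (fun a b => by
        show (D^[p]) (a * b) = _
        rw [hl']
        simp only [smul_eq_mul]
        show (D^[p]) a * b + a * (D^[p]) b = a * (D^[p]) b + b * (D^[p]) a
        ring) with hE
    obtain ⟨c, hc⟩ := hK2 k F hF D E hD
    have hEx : E x = 0 := by
      show (D^[p]) x = 0
      obtain ⟨q, hq⟩ : ∃ q, p = q + 2 := ⟨p - 2, by have := hpp.out.two_le; omega⟩
      rw [hq, Function.iterate_succ_apply, Function.iterate_succ_apply, hDx,
        Derivation.map_one_eq_zero]
      exact iterate_map_zero D q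
    have hc0 : c = 0 := by
      rw [hc, Derivation.smul_apply, hDx, smul_eq_mul, mul_one] at hEx
      exact hEx
    intro f
    show E f = 0
    rw [hc, hc0, zero_smul, Derivation.zero_apply]
  -- the operators on LS k
  set Δ : LS k →+ LS k := FG_op u⁻¹ 0 with hΔ
  set Θ : LS k →+ LS k := FG_op u⁻¹ (ι w) with hΘ
  have hΔe : ∀ y, Δ y = u⁻¹ * dd y := fun y => by
    show u⁻¹ * dd y - 0 * y = _
    rw [zero_mul, sub_zero]
  have hΘe : ∀ y, Θ y = u⁻¹ * dd y - ι w * y := fun y => rfl
  have hΔl : ∀ f y, Δ (f * y) = Δ f * y + f * Δ y := by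
    intro f y
    rw [hΔe, hΔe, hΔe, dd_mul]
    ring
  have hΘl : ∀ f y, Θ (f * y) = Δ f * y + f * Θ y := by
    intro f y
    rw [hΔe, hΘe, hΘe, dd_mul]
    ring
  have hΔι : ∀ f : F, Δ (ι f) = ι (D f) := by
    intro f
    rw [hΔe, hud, inv_mul_cancel_left₀ uz]
  have hΔιn : ∀ (n : ℕ) (f : F), (Δ^[n]) (ι f) = ι ((D^[n]) f) := by
    intro n
    induction n with
    | zero => intro f; rfl
    | succ n ih => intro f; rw [Function.iterate_succ_apply, hΔι, ih, Function.iterate_succ_apply]
  -- Δ^p = 0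
  have hΔp : ∀ y : LS k, (Δ^[p]) y = 0 := by
    set E : LS k →+ LS k := FG_it Δ p with hE
    have hEl : ∀ f g, E (f * g) = E f * g + f * E g := fun f g => FG_leibp p Δ Δ hΔl f g
    have hEx : E (ι x) = 0 := by
      show (Δ^[p]) (ι x) = 0
      rw [hΔιn, hDp, map_zero]
    rw [FG_der p E hEl (ι x), hud, hDx, map_one, mul_one] at hEx
    have hs := (mul_eq_zero.1 hEx).resolve_left uz
    intro y
    show E y = 0
    rw [FG_der p E hEl y, hs, mul_zero]
  -- Θ^p = 0
  have hΘy : Θ y₀ = 0 := by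
    rw [hΘe, hdy, hηw, mul_assoc, inv_mul_cancel_left₀ uz, sub_self]
  have hΘp : ∀ y : LS k, (Θ^[p]) y = 0 := by
    intro y
    have e : y = (y * y₀⁻¹) * y₀ := by
      rw [mul_assoc, inv_mul_cancel₀ hy₀, mul_one]
    rw [e, FG_leibp p Δ Θ hΘl, hΔp, zero_mul, zero_add]
    have e2 : (Θ^[p]) y₀ = 0 := by
      obtain ⟨q, hq⟩ : ∃ q, p = q + 1 := ⟨p - 1, by have := hpp.out.pos; omega⟩
      rw [hq, Function.iterate_succ_apply, hΘy]
      exact iterate_map_zero Θ q
    rw [e2, mul_zero]
  -- back to F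
  set T : F → F := fun f => D f - w * f with hT
  have hTι : ∀ (n : ℕ) (f : F), (Θ^[n]) (ι f) = ι ((T^[n]) f) := by
    intro n
    induction n with
    | zero => intro f; rfl
    | succ n ih =>
      intro f
      have e : Θ (ι f) = ι (T f) := by
        show _ = ι (D f - w * f)
        rw [hΘe, hud, inv_mul_cancel_left₀ uz, map_sub, map_mul]
      rw [Function.iterate_succ_apply, e, ih, Function.iterate_succ_apply]
  have hT1 : (T^[p]) 1 = 0 := by
    apply ι.injective
    rw [← hTι, hΘp, map_zero]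
  obtain ⟨f, hf, hTf⟩ := FG_iter_zero T p hT1
  have hDf : D f = w * f := sub_eq_zero.1 hTf
  have hord : ∀ P : Place k F, (p : ℤ) ∣ P.ord f := by
    intro P
    rw [← CharP.intCast_eq_zero_iff k p]
    by_contra hc
    obtain ⟨q1, q2, q3, q4⟩ := hK5 k F hF D hD P P.unif P.unif_spec
    obtain ⟨q5, q6⟩ := q4 f hf hc
    rw [hDf, P.ord_mul w f hw0 hf] at q6
    have := (hwP P).le hw0
    omega
  obtain ⟨h, hh⟩ := hpr f hf hord
  have hDf0 : D f = 0 := by
    rw [hh, Derivation.leibniz_pow, ← Nat.cast_smul_eq_nsmul F, CharP.cast_eq_zero, zero_smul]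
  rw [hDf0] at hDf
  rcases mul_eq_zero.1 hDf.symm with h | h
  · exact hw0 h
  · exact hf h

theorem FG (hFB : FB_stmt) (hFD : FD_stmt) (h1 : FG1_stmt) (h2 : FG2_stmt) (h4 : FG4_stmt) :
    FG_stmt :=
  FG_aux QK1 aQK2 aQK5 hFB hFD h1 h2 h4

end

end AN
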