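import Pool.Agent.helper48.AN.SpecP

/-! Module an:PB (helper98): a linear change of variables makes a nonzero power series regular. -/

set_option autoImplicit false

namespace AN

open scoped Classical
open MvPowerSeries (constantCoeff coeff)

noncomputable section

variable {k : Type} [Field k] {n : ℕ}

/-- the ring homomorphism setting the variables `X_{j+1}` to zero -/
def PB_rho (k : Type) [Field k] (n : ℕ) : BB k (n + 1) →+* PowerSeries k :=
  (PowerSeries.map (constantCoeff (σ := Fin n) (R := k))).comp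
    (MvPowerSeries.finSuccEquiv k n : BB k (n + 1) →+* PowerSeries (BB k n))

theorem PB_coeff_rho (g : BB k (n + 1)) (d : ℕ) :
    PowerSeries.coeff d (PB_rho k n g) = coeff (Finsupp.cons d (0 : Fin n →₀ ℕ)) g := by
  rw [← MvPowerSeries.coeff_coeff_finSuccEquiv]
  show PowerSeries.coeff d (PowerSeries.map (constantCoeff (σ := Fin n) (R := k)) (MvPowerSeries.finSuccEquiv k n g)) = _
  rw [PowerSeries.coeff_map]
  rfl

/-- the linear change of variables -/
def PB_a (c : Fin n → k) : Fin (n + 1) → BB k (n + 1) :=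
  Fin.cons (MvPowerSeries.X 0) fun j =>
    MvPowerSeries.X j.succ + MvPowerSeries.C (c j) * MvPowerSeries.X 0

theorem PB_hs (c : Fin n → k) : MvPowerSeries.HasSubst (PB_a c) := by
  refine MvPowerSeries.hasSubst_of_constantCoeff_zero fun s => ?_
  refine Fin.cases ?_ (fun j => ?_) s
  · simp [PB_a]
  · simp [PB_a]

theorem PB_inv (c : Fin n → k) (f : BB k (n + 1)) :
    MvPowerSeries.subst (PB_a (-c)) (MvPowerSeries.subst (PB_a c) f) = f := by
  rw [MvPowerSeries.subst_comp_subst_apply (PB_hs c) (PB_hs (-c))]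
  have : (fun s => MvPowerSeries.subst (PB_a (-c)) (PB_a c s)) =
      (MvPowerSeries.X : Fin (n + 1) → BB k (n + 1)) := by
    funext s
    refine Fin.cases ?_ (fun j => ?_) s
    · show MvPowerSeries.subst (PB_a (-c)) (MvPowerSeries.X 0) = _
      rw [MvPowerSeries.subst_X (PB_hs (-c))]
      rfl
    · show MvPowerSeries.subst (PB_a (-c))
        (MvPowerSeries.X j.succ + MvPowerSeries.C (c j) * MvPowerSeries.X 0) = _
      rw [MvPowerSeries.subst_add (PB_hs (-c)), MvPowerSeries.subst_mul (PB_hs (-c)),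
        MvPowerSeries.subst_C, MvPowerSeries.subst_X (PB_hs (-c)),
        MvPowerSeries.subst_X (PB_hs (-c))]
      show MvPowerSeries.X j.succ + MvPowerSeries.C (-c j) * MvPowerSeries.X 0 +
        MvPowerSeries.C (c j) * MvPowerSeries.X 0 = _
      rw [map_neg]
      ring
  rw [this, MvPowerSeries.subst_self]
  rfl

theorem PB_mono (c : Fin n → k) (e : Fin (n + 1) →₀ ℕ) (d : ℕ) :
    coeff (Finsupp.cons d (0 : Fin n →₀ ℕ)) (e.prod fun s m => (PB_a c s) ^ m) =
      if ∑ s, e s = d then ∏ j : Fin n, c j ^ (e j.succ) else 0 := by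
  rw [← PB_coeff_rho, Finsupp.prod_fintype _ _ (fun i => pow_zero _), map_prod]
  have h0 : PB_rho k n (MvPowerSeries.X 0) = PowerSeries.X := by
    show PowerSeries.map (constantCoeff (σ := Fin n) (R := k)) (MvPowerSeries.finSuccEquiv k n (MvPowerSeries.X 0)) = _
    rw [MvPowerSeries.finSuccEquiv_X_zero, PowerSeries.map_X]
  have h1 : ∀ j : Fin n, PB_rho k n (MvPowerSeries.X j.succ) = 0 := by
    intro j
    show PowerSeries.map (constantCoeff (σ := Fin n) (R := k)) (MvPowerSeries.finSuccEquiv k n (MvPowerSeries.X j.succ)) = _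
    rw [MvPowerSeries.finSuccEquiv_X_succ, PowerSeries.map_C, MvPowerSeries.constantCoeff_X,
      map_zero]
  have h2 : ∀ r : k, PB_rho k n (MvPowerSeries.C r) = PowerSeries.C r := by
    intro r
    show PowerSeries.map (constantCoeff (σ := Fin n) (R := k)) (MvPowerSeries.finSuccEquiv k n (MvPowerSeries.C r)) = _
    rw [MvPowerSeries.finSuccEquiv_C, PowerSeries.map_C, MvPowerSeries.constantCoeff_C]
  have h3 : ∏ s, PB_rho k n (PB_a c s ^ e s) =
      PowerSeries.C (∏ j : Fin n, c j ^ (e j.succ)) * PowerSeries.X ^ (∑ s, e s) := by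
    rw [Fin.prod_univ_succ, Fin.sum_univ_succ, pow_add, ← Finset.prod_pow_eq_pow_sum]
    have h4 : PB_rho k n (PB_a c 0 ^ e 0) = PowerSeries.X ^ e 0 := by
      rw [map_pow]
      show PB_rho k n (MvPowerSeries.X 0) ^ e 0 = _
      rw [h0]
    have h5 : ∀ j : Fin n, PB_rho k n (PB_a c j.succ ^ e j.succ) =
        PowerSeries.C (c j ^ e j.succ) * PowerSeries.X ^ e j.succ := by
      intro j
      rw [map_pow]
      show PB_rho k n (MvPowerSeries.X j.succ + MvPowerSeries.C (c j) * MvPowerSeries.X 0) ^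
        e j.succ = _
      rw [map_add, map_mul, h1, h2, h0, zero_add, mul_pow, map_pow]
    rw [h4, Finset.prod_congr rfl fun j _ => h5 j, Finset.prod_mul_distrib, map_prod]
    ring
  rw [h3, PowerSeries.coeff_C_mul, PowerSeries.coeff_X_pow]
  by_cases h : ∑ s, e s = d
  · rw [if_pos h, if_pos h.symm, mul_one]
  · rw [if_neg h, if_neg (Ne.symm h), mul_zero]

theorem PB_coeff (c : Fin n → k) (f : BB k (n + 1)) (d : ℕ) :
    coeff (Finsupp.cons d (0 : Fin n →₀ ℕ)) (MvPowerSeries.subst (PB_a c) f) =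
      ∑ e ∈ Finset.finsuppAntidiag (Finset.univ : Finset (Fin (n + 1))) d,
        coeff e f * ∏ j : Fin n, c j ^ (e j.succ) := by
  rw [MvPowerSeries.coeff_subst (PB_hs c)]
  rw [finsum_eq_sum_of_support_subset]
  · refine Finset.sum_congr rfl fun e he => ?_
    rw [Finset.mem_finsuppAntidiag] at he
    rw [PB_mono, if_pos he.1, smul_eq_mul]
  · intro e he
    rw [Function.mem_support, PB_mono] at he
    rw [Finset.mem_coe, Finset.mem_finsuppAntidiag]
    refine ⟨?_, Finset.subset_univ _⟩
    by_contra h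
    rw [if_neg h, smul_zero] at he
    exact he rfl

theorem PB_poly [Infinite k] (f : BB k (n + 1)) (hf : f ≠ 0) : ∃ (c : Fin n → k) (d : ℕ),
    ∑ e ∈ Finset.finsuppAntidiag (Finset.univ : Finset (Fin (n + 1))) d,
        coeff e f * ∏ j : Fin n, c j ^ (e j.succ) ≠ 0 := by
  obtain ⟨e₀, he₀⟩ : ∃ e₀, coeff e₀ f ≠ 0 := by
    by_contra h
    push Not at h
    exact hf (MvPowerSeries.ext fun e => by rw [h e, map_zero])
  by_contra hc
  push Not at hc
  set d := ∑ s, e₀ s with hd
  set G : MvPolynomial (Fin n) k :=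
    ∑ e ∈ Finset.finsuppAntidiag (Finset.univ : Finset (Fin (n + 1))) d,
      MvPolynomial.monomial (Finsupp.tail e) (coeff e f) with hG
  have h1 : G = 0 := by
    refine MvPolynomial.funext fun c => ?_
    rw [map_zero, hG, map_sum, ← hc c d]
    refine Finset.sum_congr rfl fun e _ => ?_
    rw [MvPolynomial.eval_monomial, Finsupp.prod_fintype _ _ (fun i => pow_zero _)]
    rfl
  have h2 : MvPolynomial.coeff (Finsupp.tail e₀) G = coeff e₀ f := by
    rw [hG, MvPolynomial.coeff_sum, Finset.sum_eq_single e₀]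
    · rw [MvPolynomial.coeff_monomial, if_pos rfl]
    · intro e he hne
      rw [MvPolynomial.coeff_monomial, if_neg]
      intro h3
      refine hne ?_
      rw [Finset.mem_finsuppAntidiag] at he
      have h4 : ∑ s, e s = ∑ s, e₀ s := he.1
      rw [Fin.sum_univ_succ, Fin.sum_univ_succ] at h4
      have h5 : ∀ j : Fin n, e j.succ = e₀ j.succ := fun j => DFunLike.congr_fun h3 j
      rw [Finset.sum_congr rfl fun j _ => h5 j] at h4
      ext s
      refine Fin.cases ?_ (fun j => h5 j) s
      omega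
    · intro h
      exfalso
      apply h
      rw [Finset.mem_finsuppAntidiag]
      exact ⟨hd.symm, Finset.subset_univ _⟩
  rw [h1, MvPolynomial.coeff_zero] at h2
  exact he₀ h2.symm

theorem PB : PB_stmt := by
  intro k _ _ n f hf
  obtain ⟨c, d, h⟩ := PB_poly f hf
  have e1 : ∀ (c : Fin n → k), ((MvPowerSeries.substAlgHom (R := k) (PB_hs (-c))).comp
      (MvPowerSeries.substAlgHom (R := k) (PB_hs c))) = AlgHom.id k (BB k (n + 1)) := by
    intro c
    ext1 g
    rw [AlgHom.comp_apply, MvPowerSeries.substAlgHom_apply, MvPowerSeries.substAlgHom_apply, PB_inv]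
    rfl
  have e2 : ((MvPowerSeries.substAlgHom (R := k) (PB_hs c)).comp
      (MvPowerSeries.substAlgHom (R := k) (PB_hs (-c)))) = AlgHom.id k (BB k (n + 1)) := by
    have h1 := e1 (-c)
    ext1 g
    have h2 := DFunLike.congr_fun h1 g
    rw [AlgHom.comp_apply, MvPowerSeries.substAlgHom_apply, MvPowerSeries.substAlgHom_apply,
      neg_neg] at h2
    rw [AlgHom.comp_apply, MvPowerSeries.substAlgHom_apply, MvPowerSeries.substAlgHom_apply, h2]
  refine ⟨AlgEquiv.ofAlgHom (MvPowerSeries.substAlgHom (R := k) (PB_hs c))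
    (MvPowerSeries.substAlgHom (R := k) (PB_hs (-c))) e2 (e1 c), fun h0 => h ?_⟩
  rw [← PB_coeff c f d, ← PB_coeff_rho]
  have h1 : PB_rho k n (MvPowerSeries.subst (PB_a c) f) = 0 := by
    show PowerSeries.map (constantCoeff (σ := Fin n) (R := k)) (MvPowerSeries.finSuccEquiv k n (MvPowerSeries.subst (PB_a c) f)) = 0
    rw [← h0]
    rw [AlgEquiv.ofAlgHom_apply, MvPowerSeries.substAlgHom_apply]
  rw [h1, map_zero]

end

end AN
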